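import Pool.Agent.Helper22.G4.Sys

/-! # G4-N2: from a real solution of the positive system to one of the quadratic system -/

namespace Pool.Agent.Helper57.G4

open Pool.Agent.Helper22.G4

theorem holds_of_posQ {u : ℕ → ℝ} {R t : ℕ} {q : Q4} (h : ∀ c ∈ posQ R t q, PC.Holds u c) :
    Q4.Holds (fun i => u (av i) - u (bv i)) q := by
  have h0 := h (1, av q.1, av q.2.1, 2 * R + 9 * t) (by simp [posQ])
  have h1 := h (1, bv q.1, bv q.2.1, 2 * R + 9 * t + 1) (by simp [posQ])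
  have h2 := h (1, av q.1, bv q.2.1, 2 * R + 9 * t + 2) (by simp [posQ])
  have h3 := h (1, bv q.1, av q.2.1, 2 * R + 9 * t + 3) (by simp [posQ])
  have h4 := h (0, 2 * R + 9 * t, 2 * R + 9 * t + 1, 2 * R + 9 * t + 4) (by simp [posQ])
  have h5 := h (0, 2 * R + 9 * t + 2, 2 * R + 9 * t + 3, 2 * R + 9 * t + 5) (by simp [posQ])
  have h6 := h (0, 2 * R + 9 * t + 4, av q.2.2.1, 2 * R + 9 * t + 6) (by simp [posQ])
  have h7 := h (0, 2 * R + 9 * t + 5, bv q.2.2.1, 2 * R + 9 * t + 7) (by simp [posQ])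
  have h8 := h (0, 2 * R + 9 * t + 6, bv q.2.2.2, 2 * R + 9 * t + 8) (by simp [posQ])
  have h9 := h (0, 2 * R + 9 * t + 7, av q.2.2.2, 2 * R + 9 * t + 8) (by simp [posQ])
  simp only [PC.Holds, if_true, one_ne_zero, if_false] at h0 h1 h2 h3 h4 h5 h6 h7 h8 h9
  simp only [Q4.Holds]
  linear_combination h0 + h1 - h2 - h3 + h4 - h5 + h6 - h7 + h8 - h9

/-- G4-N2 -/
theorem quadSat_of_posWeak {L : List Q4} (h : PosWeak (posOf L)) : QuadSat L := by
  obtain ⟨u, hu⟩ := h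
  refine ⟨fun i => u (av i) - u (bv i), ?_, ?_, ?_⟩
  · simp [av, bv]
  · have h1 := hu (2, bv 1, 0, av 1) (by simp [posOf])
    simp only [PC.Holds, OfNat.ofNat_ne_zero, OfNat.ofNat_ne_one, if_false] at h1
    show u (av 1) - u (bv 1) = 1
    linear_combination -h1
  · intro q hq
    obtain ⟨t, ht, hqt⟩ := List.mem_iff_getElem.1 hq
    have hmem : (q, t) ∈ L.zipIdx := by
      rw [List.mem_zipIdx_iff_getElem?]
      simp [List.getElem?_eq_getElem ht, hqt]
    refine holds_of_posQ (R := bnd L) (t := t) fun c hc => hu c ?_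
    refine List.mem_cons_of_mem _ (List.mem_flatMap.2 ⟨(q, t), hmem, hc⟩)

end Pool.Agent.Helper57.G4
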