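import Pool.Agent.Helper22.G4.Real
import Pool.Agent.Helper22.G4.St.C0
import Pool.Agent.Helper22.G4.St.R6

/-! # G4-R7: Minkowski sums of at most three pages -/

namespace Pool.Agent.Helper57.G4

open Submodule Pool.Agent.Helper22.G4

theorem vec_add (a b c d e a' b' c' d' e' : ℝ) :
    vec a b c d e + vec a' b' c' d' e' = vec (a + a') (b + b') (c + c') (d + d') (e + e') := by
  ext i; fin_cases i <;> simp [vec]

theorem vec_smul (r a b c d e : ℝ) :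
    r • vec a b c d e = vec (r * a) (r * b) (r * c) (r * d) (r * e) := by
  ext i; fin_cases i <;> simp [vec]

theorem vec_congr {a b c d e a' b' c' d' e' : ℝ} (h1 : a = a') (h2 : b = b') (h3 : c = c')
    (h4 : d = d') (h5 : e = e') : vec a b c d e = vec a' b' c' d' e' := by
  subst h1 h2 h3 h4 h5; rfl

section

variable {I : NF} (G : Geo I) (h m : ℝ)

theorem c_u (a i j : ℕ) : G.c h m (Vx.u a i j) = vec (G.X a i) (G.H a i) 1 a (a ^ 2) := by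
  simp [Geo.c, Vx.u]

theorem c_b1 : G.c h m Vx.b1 = vec 1 (G.al I.N) 0 0 0 := by
  simp [Geo.c, Vx.b1]

theorem c_b2 : G.c h m Vx.b2 = vec (-1) (-G.al 0) 0 0 0 := by
  simp [Geo.c, Vx.b2]

/-- the sum of three vertices of pages -/
theorem inCone_three {a₁ a₂ a₃ i₁ i₂ i₃ j₁ j₂ j₃ : ℕ} (p₁ : I.PU a₁ i₁ j₁) (p₂ : I.PU a₂ i₂ j₂)
    (p₃ : I.PU a₃ i₃ j₃) {t₁ t₂ t₃ : ℝ} (ht₁ : 0 ≤ t₁) (ht₂ : 0 ≤ t₂) (ht₃ : 0 ≤ t₃) :
    InCone (G.c h m) I.data.verts.toFinset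
      (vec (t₁ * G.X a₁ i₁ + t₂ * G.X a₂ i₂ + t₃ * G.X a₃ i₃)
        (t₁ * G.H a₁ i₁ + t₂ * G.H a₂ i₂ + t₃ * G.H a₃ i₃) (t₁ + t₂ + t₃)
        (t₁ * a₁ + t₂ * a₂ + t₃ * a₃) (t₁ * (a₁ : ℝ) ^ 2 + t₂ * (a₂ : ℝ) ^ 2 + t₃ * (a₃ : ℝ) ^ 2)) := by
  have q : ∀ {a i j : ℕ}, I.PU a i j → ∀ {t : ℝ}, 0 ≤ t → InCone (G.c h m) I.data.verts.toFinset
      (vec (t * G.X a i) (t * G.H a i) (t * 1) (t * a) (t * (a : ℝ) ^ 2)) := by
    intro a i j p t ht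
    have := (InCone.of_mem (c := G.c h m) (List.mem_toFinset.2 p)).smul ht
    rwa [c_u, vec_smul] at this
  have := ((q p₁ ht₁).add (q p₂ ht₂)).add (q p₃ ht₃)
  rw [vec_add, vec_add] at this
  simpa only [mul_one] using this

theorem inCone_b1 {r : ℝ} (hr : 0 ≤ r) : InCone (G.c h m) I.data.verts.toFinset
    (vec r (r * G.al I.N) 0 0 0) := by
  have := (InCone.of_mem (c := G.c h m) (List.mem_toFinset.2 (NF.b_mem (I := I)).1)).smul hr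
  rw [c_b1, vec_smul] at this
  simpa using this

theorem inCone_b2 {r : ℝ} (hr : 0 ≤ r) : InCone (G.c h m) I.data.verts.toFinset
    (vec (-r) (-(r * G.al 0)) 0 0 0) := by
  have := (InCone.of_mem (c := G.c h m) (List.mem_toFinset.2 (NF.b_mem (I := I)).2)).smul hr
  rw [c_b2, vec_smul] at this
  simpa using this

theorem inCone_up (hI : I.OK) {r : ℝ} (hr : 0 ≤ r) : InCone (G.c h m) I.data.verts.toFinset
    (vec 0 r 0 0 0) := by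
  have hN := (NF.size hI).2.2.1
  have hal : G.al 0 < G.al I.N := G.mono 0 I.N (by omega) le_rfl
  have hd : 0 < G.al I.N - G.al 0 := sub_pos.2 hal
  have hr' : 0 ≤ r / (G.al I.N - G.al 0) := by positivity
  have := (inCone_b1 G h m hr').add (inCone_b2 G h m hr')
  rw [vec_add] at this
  convert this using 1
  apply vec_congr <;> (field_simp; ring)

end

/-- G4-R7 (Minkowski sums of at most three pages). -/
theorem chain {I : NF} (hI : I.OK) (G : Geo I) (h m : ℝ) {a₁ a₂ a₃ : ℕ} (h₁ : a₁ ≤ I.M)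
    (h₂ : a₂ ≤ I.M) (h₃ : a₃ ≤ I.M) {t₁ t₂ t₃ x y : ℝ} (ht₁ : 0 ≤ t₁) (ht₂ : 0 ≤ t₂) (ht₃ : 0 ≤ t₃)
    (H : ∀ s ≤ I.N, t₁ * G.T a₁ s + t₂ * G.T a₂ s + t₃ * G.T a₃ s ≤ y - G.al s * x) :
    InCone (G.c h m) I.data.verts.toFinset (vec x y (t₁ + t₂ + t₃) (t₁ * a₁ + t₂ * a₂ + t₃ * a₃)
      (t₁ * (a₁ : ℝ) ^ 2 + t₂ * (a₂ : ℝ) ^ 2 + t₃ * (a₃ : ℝ) ^ 2)) := by
  have hN := (NF.size hI).2.2.1
  obtain ⟨k, hk, hmin⟩ := Finset.exists_min_image (Finset.range (I.N + 1))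
    (fun s => y - G.al s * x - (t₁ * G.T a₁ s + t₂ * G.T a₂ s + t₃ * G.T a₃ s)) ⟨0, by simp⟩
  have hkN : k ≤ I.N := by
    have := Finset.mem_range.1 hk; omega
  set δ := y - G.al k * x - (t₁ * G.T a₁ k + t₂ * G.T a₂ k + t₃ * G.T a₃ k) with hδ
  have hδ0 : 0 ≤ δ := by
    have := H k hkN
    linarith
  have hmin' : ∀ s ≤ I.N, δ ≤ y - G.al s * x - (t₁ * G.T a₁ s + t₂ * G.T a₂ s + t₃ * G.T a₃ s) :=
    fun s hs => hmin s (Finset.mem_range.2 (by omega))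
  -- it suffices to treat the point with `y - δ`
  suffices hmain : InCone (G.c h m) I.data.verts.toFinset (vec x (y - δ) (t₁ + t₂ + t₃)
      (t₁ * a₁ + t₂ * a₂ + t₃ * a₃)
      (t₁ * (a₁ : ℝ) ^ 2 + t₂ * (a₂ : ℝ) ^ 2 + t₃ * (a₃ : ℝ) ^ 2)) by
    have := hmain.add (inCone_up G h m hI hδ0)
    rw [vec_add] at this
    convert this using 1
    apply vec_congr <;> ring
  -- vertices before `k`
  have left : 0 < k → ∃ i₁ j₁ i₂ j₂ i₃ j₃, I.PU a₁ i₁ j₁ ∧ I.PU a₂ i₂ j₂ ∧ I.PU a₃ i₃ j₃ ∧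
      G.T a₁ k = G.H a₁ i₁ - G.al k * G.X a₁ i₁ ∧ G.T a₂ k = G.H a₂ i₂ - G.al k * G.X a₂ i₂ ∧
      G.T a₃ k = G.H a₃ i₃ - G.al k * G.X a₃ i₃ ∧
      t₁ * G.X a₁ i₁ + t₂ * G.X a₂ i₂ + t₃ * G.X a₃ i₃ ≤ x := by
    intro hk0
    obtain ⟨i₁, j₁, p₁, q₁, r₁⟩ := NF.pu_cover hI h₁ (s := k - 1) (by omega)
    obtain ⟨i₂, j₂, p₂, q₂, r₂⟩ := NF.pu_cover hI h₂ (s := k - 1) (by omega)
    obtain ⟨i₃, j₃, p₃, q₃, r₃⟩ := NF.pu_cover hI h₃ (s := k - 1) (by omega)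
    have e₁ := ((G.tan a₁ i₁ j₁ p₁ k hkN).2).2 ⟨by omega, by omega⟩
    have e₂ := ((G.tan a₂ i₂ j₂ p₂ k hkN).2).2 ⟨by omega, by omega⟩
    have e₃ := ((G.tan a₃ i₃ j₃ p₃ k hkN).2).2 ⟨by omega, by omega⟩
    have f₁ := ((G.tan a₁ i₁ j₁ p₁ (k - 1) (by omega)).2).2 ⟨by omega, by omega⟩
    have f₂ := ((G.tan a₂ i₂ j₂ p₂ (k - 1) (by omega)).2).2 ⟨by omega, by omega⟩
    have f₃ := ((G.tan a₃ i₃ j₃ p₃ (k - 1) (by omega)).2).2 ⟨by omega, by omega⟩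
    refine ⟨i₁, j₁, i₂, j₂, i₃, j₃, p₁, p₂, p₃, e₁, e₂, e₃, ?_⟩
    have hal : G.al (k - 1) < G.al k := G.mono _ _ (by omega) hkN
    have h1 := hmin' (k - 1) (by omega)
    rw [hδ, e₁, e₂, e₃, f₁, f₂, f₃] at h1
    nlinarith
  have right : k < I.N → ∃ i₁ j₁ i₂ j₂ i₃ j₃, I.PU a₁ i₁ j₁ ∧ I.PU a₂ i₂ j₂ ∧ I.PU a₃ i₃ j₃ ∧
      G.T a₁ k = G.H a₁ i₁ - G.al k * G.X a₁ i₁ ∧ G.T a₂ k = G.H a₂ i₂ - G.al k * G.X a₂ i₂ ∧
      G.T a₃ k = G.H a₃ i₃ - G.al k * G.X a₃ i₃ ∧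
      x ≤ t₁ * G.X a₁ i₁ + t₂ * G.X a₂ i₂ + t₃ * G.X a₃ i₃ := by
    intro hk0
    obtain ⟨i₁, j₁, p₁, q₁, r₁⟩ := NF.pu_cover hI h₁ (s := k) (by omega)
    obtain ⟨i₂, j₂, p₂, q₂, r₂⟩ := NF.pu_cover hI h₂ (s := k) (by omega)
    obtain ⟨i₃, j₃, p₃, q₃, r₃⟩ := NF.pu_cover hI h₃ (s := k) (by omega)
    have e₁ := ((G.tan a₁ i₁ j₁ p₁ k hkN).2).2 ⟨by omega, by omega⟩
    have e₂ := ((G.tan a₂ i₂ j₂ p₂ k hkN).2).2 ⟨by omega, by omega⟩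
    have e₃ := ((G.tan a₃ i₃ j₃ p₃ k hkN).2).2 ⟨by omega, by omega⟩
    have f₁ := ((G.tan a₁ i₁ j₁ p₁ (k + 1) (by omega)).2).2 ⟨by omega, by omega⟩
    have f₂ := ((G.tan a₂ i₂ j₂ p₂ (k + 1) (by omega)).2).2 ⟨by omega, by omega⟩
    have f₃ := ((G.tan a₃ i₃ j₃ p₃ (k + 1) (by omega)).2).2 ⟨by omega, by omega⟩
    refine ⟨i₁, j₁, i₂, j₂, i₃, j₃, p₁, p₂, p₃, e₁, e₂, e₃, ?_⟩
    have hal : G.al k < G.al (k + 1) := G.mono _ _ (by omega) (by omega)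
    have h1 := hmin' (k + 1) (by omega)
    rw [hδ, e₁, e₂, e₃, f₁, f₂, f₃] at h1
    nlinarith
  have hy : y - δ = t₁ * G.T a₁ k + t₂ * G.T a₂ k + t₃ * G.T a₃ k + G.al k * x := by
    rw [hδ]; ring
  rw [hy]
  rcases Nat.eq_zero_or_pos k with hk0 | hk0
  · obtain ⟨i₁, j₁, i₂, j₂, i₃, j₃, p₁, p₂, p₃, e₁, e₂, e₃, hx⟩ := right (by omega)
    have := (inCone_three G h m p₁ p₂ p₃ ht₁ ht₂ ht₃).add (inCone_b2 G h m (sub_nonneg.2 hx))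
    rw [vec_add] at this
    convert this using 1
    rw [e₁, e₂, e₃, hk0]
    apply vec_congr <;> ring
  · obtain ⟨i₁, j₁, i₂, j₂, i₃, j₃, p₁, p₂, p₃, e₁, e₂, e₃, hx⟩ := left hk0
    rcases Nat.lt_or_ge k I.N with hkN' | hkN'
    · obtain ⟨i₁', j₁', i₂', j₂', i₃', j₃', p₁', p₂', p₃', e₁', e₂', e₃', hx'⟩ := right hkN'
      obtain ⟨θ, hθ0, hθ1, hθ⟩ : ∃ θ : ℝ, 0 ≤ θ ∧ θ ≤ 1 ∧
          x = (1 - θ) * (t₁ * G.X a₁ i₁ + t₂ * G.X a₂ i₂ + t₃ * G.X a₃ i₃)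
            + θ * (t₁ * G.X a₁ i₁' + t₂ * G.X a₂ i₂' + t₃ * G.X a₃ i₃') := by
        generalize t₁ * G.X a₁ i₁ + t₂ * G.X a₂ i₂ + t₃ * G.X a₃ i₃ = S at hx
        generalize t₁ * G.X a₁ i₁' + t₂ * G.X a₂ i₂' + t₃ * G.X a₃ i₃' = S' at hx'
        rcases eq_or_lt_of_le (hx.trans hx') with hS | hS
        · exact ⟨0, le_rfl, zero_le_one, by linarith⟩
        · have hd : 0 < S' - S := sub_pos.2 hS
          refine ⟨(x - S) / (S' - S), div_nonneg (by linarith) hd.le, ?_, ?_⟩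
          · rw [div_le_one hd]; linarith
          · field_simp
            ring
      have := ((inCone_three G h m p₁ p₂ p₃ ht₁ ht₂ ht₃).smul (sub_nonneg.2 hθ1)).add
        ((inCone_three G h m p₁' p₂' p₃' ht₁ ht₂ ht₃).smul hθ0)
      rw [vec_smul, vec_smul, vec_add] at this
      convert this using 1
      have g₁ : G.H a₁ i₁ = G.T a₁ k + G.al k * G.X a₁ i₁ := by rw [e₁]; ring
      have g₂ : G.H a₂ i₂ = G.T a₂ k + G.al k * G.X a₂ i₂ := by rw [e₂]; ring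
      have g₃ : G.H a₃ i₃ = G.T a₃ k + G.al k * G.X a₃ i₃ := by rw [e₃]; ring
      have g₁' : G.H a₁ i₁' = G.T a₁ k + G.al k * G.X a₁ i₁' := by rw [e₁']; ring
      have g₂' : G.H a₂ i₂' = G.T a₂ k + G.al k * G.X a₂ i₂' := by rw [e₂']; ring
      have g₃' : G.H a₃ i₃' = G.T a₃ k + G.al k * G.X a₃ i₃' := by rw [e₃']; ring
      rw [g₁, g₂, g₃, g₁', g₂', g₃']
      apply vec_congr
      · exact hθ
      · linear_combination G.al k * hθ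
      · ring
      · ring
      · ring
    · have hkE : k = I.N := le_antisymm hkN hkN'
      have := (inCone_three G h m p₁ p₂ p₃ ht₁ ht₂ ht₃).add (inCone_b1 G h m (sub_nonneg.2 hx))
      rw [vec_add] at this
      convert this using 1
      rw [e₁, e₂, e₃, ← hkE]
      apply vec_congr <;> ring

end Pool.Agent.Helper57.G4
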