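import Pool.Agent.Helper22.G4.Poly

/-! # G4-T6: the list of edges is computable in polynomial time -/

namespace Pool.Agent.Helper57.G4

open Pool.Agent.Helper89 Pool.Agent.Helper91.PolyTime Pool.Agent.Helper22.G4

section

variable {ι α φ : Type} [PEnc ι] [PEnc α] [PEnc φ]

/-- the first two elements -/
theorem ptf_take_two {β : Type} [PEnc β] {l : ι → List β} (hl : PTF l) :
    PTF fun i => (l i).take 2 := by
  have h : PTF fun i => (match l i with
      | [] => []
      | b :: t => (match t with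
        | [] => [b]
        | c :: _ => [b, c]) : List β) := by
    refine PTF.listCase (s := fun _ b t => (match t with
        | [] => [b]
        | c :: _ => [b, c])) hl (PTF.const []) ?_
    exact PTF.listCase (o := fun p : ι × β × List β => p.2.2)
      (n := fun p => [p.2.1]) (s := fun p c _ => [p.2.1, c]) PTF.id.snd.snd
      (PTF.cons PTF.id.snd.fst (PTF.const []))
      (PTF.cons PTF.id.fst.snd.fst (PTF.cons PTF.id.snd.fst (PTF.const [])))
  refine h.of_eq fun i => ?_
  rcases l i with _ | ⟨b, _ | ⟨c, t⟩⟩ <;> rfl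

/-- the first element, as a list -/
theorem ptf_take_one {β : Type} [PEnc β] {l : ι → List β} (hl : PTF l) :
    PTF fun i => (l i).take 1 := by
  refine (PTF.listCase (s := fun _ b _ => [b]) hl (PTF.const [])
    (PTF.cons PTF.id.snd.fst (PTF.const []))).of_eq fun i => ?_
  rcases l i with _ | ⟨b, t⟩ <;> rfl

theorem ptf_zip {β γ : Type} [PEnc β] [PEnc γ] {l : ι → List β} {m : ι → List γ}
    (hl : PTF l) (hm : PTF m) : PTF fun i => (l i).zip (m i) := by
  have h : PTF fun i => (List.range (l i).length).flatMap fun k =>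
      (match (l i)[k]? with
        | none => []
        | some b => (match (m i)[k]? with
          | none => []
          | some c => [(b, c)]) : List (β × γ)) := by
    refine PTF.flatMap (f := fun i k => (match (l i)[k]? with
        | none => []
        | some b => (match (m i)[k]? with
          | none => []
          | some c => [(b, c)]) : List (β × γ))) (PTF.range (PTF.length hl)) ?_
    refine PTF.optCase (o := fun p : ι × ℕ => (l p.1)[p.2]?) (n := fun _ => [])
      (s := fun p b => (match (m p.1)[p.2]? with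
          | none => []
          | some c => [(b, c)]))
      (PTF.getElem? PTF.id.snd (hl.comp PTF.id.fst)) (PTF.const []) ?_
    exact PTF.optCase (o := fun p : (ι × ℕ) × β => (m p.1.1)[p.1.2]?) (n := fun _ => [])
      (s := fun p c => [(p.2, c)])
      (PTF.getElem? PTF.id.fst.snd (hm.comp PTF.id.fst.fst)) (PTF.const [])
      (PTF.cons (PTF.pair PTF.id.fst.snd PTF.id.snd) (PTF.const []))
  refine h.of_eq fun i => ?_
  have key : ∀ (a : List β) (b : List γ), (List.range a.length).flatMap (fun k =>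
      (match a[k]? with
        | none => []
        | some x => (match b[k]? with
          | none => []
          | some c => [(x, c)]) : List (β × γ))) = a.zip b := by
    intro a
    induction a with
    | nil => intro b; simp
    | cons x a ih =>
      intro b
      rcases b with _ | ⟨y, b⟩
      · simp only [List.getElem?_nil, List.zip_nil_right, List.flatMap_eq_nil_iff]
        intro k _
        cases (x :: a)[k]? <;> rfl
      · rw [List.length_cons, List.range_succ_eq_map, List.flatMap_cons, List.flatMap_map,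
          List.zip_cons_cons, ← ih b]
        rfl
  exact key _ _

theorem ptf_cycPairs {β : Type} [PEnc β] {l : ι → List β} (hl : PTF l) :
    PTF fun i => cycPairs (l i) :=
  ptf_zip hl (PTF.append (PTF.tail hl) (ptf_take_one hl))

theorem ptf_drop_one {β : Type} [PEnc β] {l : ι → List β} (hl : PTF l) :
    PTF fun i => (l i).drop 1 := PTF.drop (PTF.const 1) hl

theorem ptf_Ts {R : ι → Flat α φ} (hR : PTF R) : PTF fun i => (Ts (R i) : List (List (W α φ))) := by
  unfold Ts
  have hv1 : PTF fun p : ι × α × α => (W.v p.2.1 : W α φ) := PTF.inl PTF.id.snd.fst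
  have hv2 : PTF fun p : ι × α × α => (W.v p.2.2 : W α φ) := PTF.inl PTF.id.snd.snd
  have hR' : PTF fun p : ι × α × α => R p.1 := hR.comp PTF.id.fst
  have hp : PTF fun p : ι × α × α => (W.p (R p.1) : W α φ) := PTF.inr (PTF.inr (PTF.inl hR'))
  have hq : PTF fun p : ι × α × α => (W.q (R p.1) : W α φ) := PTF.inr (PTF.inr (PTF.inr hR'))
  have hx1 : PTF fun p : ι × α × α => (W.x (R p.1).2.1 : W α φ) := PTF.inr (PTF.inl hR'.snd.fst)
  have hx2 : PTF fun p : ι × α × α => (W.x (R p.1).2.2 : W α φ) := PTF.inr (PTF.inl hR'.snd.snd)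
  have h4 : ∀ {a b c d : ι × α × α → W α φ}, PTF a → PTF b → PTF c → PTF d →
      PTF fun p => [a p, b p, c p, d p] := fun ha hb hc hd =>
    PTF.cons ha (PTF.cons hb (PTF.cons hc (PTF.cons hd (PTF.const []))))
  refine PTF.append ?_ ?_
  · exact PTF.flatMap (f := fun i (e : α × α) =>
      ([[W.p (R i), W.x (R i).2.1, W.v e.1, W.v e.2],
        [W.q (R i), W.x (R i).2.2, W.v e.1, W.v e.2]] : List (List (W α φ))))
      (ptf_drop_one (ptf_cycPairs hR.fst))
      (PTF.cons (h4 hp hx1 hv1 hv2) (PTF.cons (h4 hq hx2 hv1 hv2) (PTF.const [])))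
  · exact PTF.flatMap (f := fun i (e : α × α) =>
      ([[W.p (R i), W.q (R i), W.v e.1, W.v e.2], [W.p (R i), W.q (R i), W.x (R i).2.1, W.v e.1],
        [W.p (R i), W.q (R i), W.x (R i).2.1, W.v e.2]] : List (List (W α φ))))
      (ptf_take_one (ptf_cycPairs hR.fst))
      (PTF.cons (h4 hp hq hv1 hv2) (PTF.cons (h4 hp hq hx1 hv1)
        (PTF.cons (h4 hp hq hx1 hv2) (PTF.const []))))

variable {D : ι → Data α φ}

theorem ptf_eIn (hm : PTF fun p : ι × φ × α => (D p.1).mem p.2.1 p.2.2) :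
    PTF fun p : (ι × Flat α φ) × φ => (D p.1.1).eIn p.1.2 p.2 := by
  unfold Data.eIn
  exact PTF.all (f := fun (p : (ι × Flat α φ) × φ) (a : α) => (D p.1.1).mem p.2 a)
    (ptf_take_two PTF.id.fst.snd.fst)
    (hm.comp (PTF.pair PTF.id.fst.fst.fst (PTF.pair PTF.id.fst.snd PTF.id.snd)))

theorem ptf_padjB [DecidableEq α] (hv : PTF fun i => (D i).verts) (hf : PTF fun i => (D i).fcodes)
    (hm : PTF fun p : ι × φ × α => (D p.1).mem p.2.1 p.2.2) :
    PTF fun p : (ι × α) × α => (D p.1.1).padjB p.1.2 p.2 := by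
  unfold Data.padjB
  refine PTF.and (PTF.not (PTF.eq PTF.id.fst.snd PTF.id.snd)) ?_
  refine PTF.all (f := fun (p : (ι × α) × α) (t : α) => decide (t = p.1.2) || (decide (t = p.2) ||
    (D p.1.1).fcodes.any fun f => (D p.1.1).mem f p.1.2 && ((D p.1.1).mem f p.2 &&
      !(D p.1.1).mem f t))) (hv.comp PTF.id.fst.fst) ?_
  refine PTF.or (PTF.eq PTF.id.snd PTF.id.fst.fst.snd)
    (PTF.or (PTF.eq PTF.id.snd PTF.id.fst.snd) ?_)
  refine PTF.any (f := fun (p : ((ι × α) × α) × α) (f : φ) => (D p.1.1.1).mem f p.1.1.2 &&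
    ((D p.1.1.1).mem f p.1.2 && !(D p.1.1.1).mem f p.2)) (hf.comp PTF.id.fst.fst.fst) ?_
  refine PTF.and (hm.comp (PTF.pair PTF.id.fst.fst.fst.fst
    (PTF.pair PTF.id.snd PTF.id.fst.fst.fst.snd))) (PTF.and ?_ (PTF.not ?_))
  · exact hm.comp (PTF.pair PTF.id.fst.fst.fst.fst (PTF.pair PTF.id.snd PTF.id.fst.fst.snd))
  · exact hm.comp (PTF.pair PTF.id.fst.fst.fst.fst (PTF.pair PTF.id.snd PTF.id.fst.snd))

theorem ptf_edges1 [DecidableEq α] (hv : PTF fun i => (D i).verts) (hf : PTF fun i => (D i).fcodes)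
    (hm : PTF fun p : ι × φ × α => (D p.1).mem p.2.1 p.2.2) : PTF fun i => (D i).edges1 := by
  unfold Data.edges1
  refine PTF.flatMap (f := fun i a => ((D i).verts.filter fun b => (D i).padjB a b).map
    fun b => ((W.v a, W.v b) : W α φ × W α φ)) hv ?_
  refine PTF.map (f := fun (p : ι × α) (b : α) => ((W.v p.2, W.v b) : W α φ × W α φ)) ?_
    (PTF.pair (PTF.inl PTF.id.fst.snd) (PTF.inl PTF.id.snd))
  exact PTF.filter (f := fun (p : ι × α) (b : α) => (D p.1).padjB p.2 b) (hv.comp PTF.id.fst)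
    (ptf_padjB hv hf hm)

theorem ptf_edges2 (hv : PTF fun i => (D i).verts) (hf : PTF fun i => (D i).fcodes)
    (hm : PTF fun p : ι × φ × α => (D p.1).mem p.2.1 p.2.2) : PTF fun i => (D i).edges2 := by
  unfold Data.edges2
  refine PTF.flatMap (f := fun i f => ((D i).verts.filter fun a => (D i).mem f a).map
    fun a => ((W.x f, W.v a) : W α φ × W α φ)) hf ?_
  refine PTF.map (f := fun (p : ι × φ) (a : α) => ((W.x p.2, W.v a) : W α φ × W α φ)) ?_
    (PTF.pair (PTF.inr (PTF.inl PTF.id.fst.snd)) (PTF.inl PTF.id.snd))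
  exact PTF.filter (f := fun (p : ι × φ) (a : α) => (D p.1).mem p.2 a) (hv.comp PTF.id.fst)
    (hm.comp (PTF.pair PTF.id.fst.fst (PTF.pair PTF.id.fst.snd PTF.id.snd)))

theorem ptf_edges3 (hr : PTF fun i => (D i).flats) : PTF fun i => (D i).edges3 := by
  unfold Data.edges3
  refine PTF.flatMap (f := fun _ (R : Flat α φ) => (W.p R, W.x R.2.1) ::
    R.1.map fun a => ((W.p R, W.v a) : W α φ × W α φ)) hr ?_
  refine PTF.cons (PTF.pair (PTF.inr (PTF.inr (PTF.inl PTF.id.snd)))
    (PTF.inr (PTF.inl PTF.id.snd.snd.fst))) ?_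
  exact PTF.map (f := fun (p : ι × Flat α φ) (a : α) => ((W.p p.2, W.v a) : W α φ × W α φ))
    PTF.id.snd.fst (PTF.pair (PTF.inr (PTF.inr (PTF.inl PTF.id.fst.snd))) (PTF.inl PTF.id.snd))

theorem ptf_edges4 [DecidableEq φ] (hv : PTF fun i => (D i).verts) (hf : PTF fun i => (D i).fcodes)
    (hr : PTF fun i => (D i).flats)
    (hm : PTF fun p : ι × φ × α => (D p.1).mem p.2.1 p.2.2) : PTF fun i => (D i).edges4 := by
  unfold Data.edges4
  refine PTF.flatMap (f := fun i (R : Flat α φ) => ((W.q R, W.p R) ::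
    (R.1.map (fun a => (W.q R, W.v a)) ++
    ((D i).fcodes.filter fun f => (D i).eIn R f).flatMap fun f => (W.q R, W.x f) ::
      ((D i).fcodes.filter fun g => !(decide (f = g)) && (D i).eIn R g).flatMap fun g =>
        ((D i).verts.filter fun a => (D i).mem f a && (D i).mem g a).map
          fun a => (W.q R, W.v a)) : List (W α φ × W α φ))) hr ?_
  refine PTF.cons (PTF.pair (PTF.inr (PTF.inr (PTF.inr PTF.id.snd)))
    (PTF.inr (PTF.inr (PTF.inl PTF.id.snd)))) (PTF.append ?_ ?_)
  · exact PTF.map (f := fun (p : ι × Flat α φ) (a : α) => ((W.q p.2, W.v a) : W α φ × W α φ))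
      PTF.id.snd.fst (PTF.pair (PTF.inr (PTF.inr (PTF.inr PTF.id.fst.snd))) (PTF.inl PTF.id.snd))
  · refine PTF.flatMap (f := fun (p : ι × Flat α φ) (f : φ) => ((W.q p.2, W.x f) ::
      ((D p.1).fcodes.filter fun g => !(decide (f = g)) && (D p.1).eIn p.2 g).flatMap fun g =>
        ((D p.1).verts.filter fun a => (D p.1).mem f a && (D p.1).mem g a).map
          fun a => (W.q p.2, W.v a) : List (W α φ × W α φ)))
      (PTF.filter (f := fun (p : ι × Flat α φ) (f : φ) => (D p.1).eIn p.2 f)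
        (hf.comp PTF.id.fst) (ptf_eIn hm)) ?_
    refine PTF.cons (PTF.pair (PTF.inr (PTF.inr (PTF.inr PTF.id.fst.snd)))
      (PTF.inr (PTF.inl PTF.id.snd))) ?_
    refine PTF.flatMap (f := fun (p : (ι × Flat α φ) × φ) (g : φ) =>
      (((D p.1.1).verts.filter fun a => (D p.1.1).mem p.2 a && (D p.1.1).mem g a).map
          fun a => (W.q p.1.2, W.v a) : List (W α φ × W α φ)))
      (PTF.filter (f := fun (p : (ι × Flat α φ) × φ) (g : φ) =>
          !(decide (p.2 = g)) && (D p.1.1).eIn p.1.2 g) (hf.comp PTF.id.fst.fst)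
        (PTF.and (PTF.not (PTF.eq PTF.id.fst.snd PTF.id.snd))
          ((ptf_eIn hm).comp (PTF.pair PTF.id.fst.fst PTF.id.snd)))) ?_
    refine PTF.map (f := fun (p : ((ι × Flat α φ) × φ) × φ) (a : α) =>
      ((W.q p.1.1.2, W.v a) : W α φ × W α φ)) ?_
      (PTF.pair (PTF.inr (PTF.inr (PTF.inr PTF.id.fst.fst.fst.snd))) (PTF.inl PTF.id.snd))
    refine PTF.filter (f := fun (p : ((ι × Flat α φ) × φ) × φ) (a : α) =>
      (D p.1.1.1).mem p.1.2 a && (D p.1.1.1).mem p.2 a) (hv.comp PTF.id.fst.fst.fst) ?_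
    exact PTF.and
      (hm.comp (PTF.pair PTF.id.fst.fst.fst.fst (PTF.pair PTF.id.fst.fst.snd PTF.id.snd)))
      (hm.comp (PTF.pair PTF.id.fst.fst.fst.fst (PTF.pair PTF.id.fst.snd PTF.id.snd)))

end

/-- G4-T6 -/
theorem ptf_edgesX {ι α φ : Type} [PEnc ι] [PEnc α] [PEnc φ] [DecidableEq α] [DecidableEq φ]
    {D : ι → Data α φ} (hv : PTF fun i => (D i).verts) (hf : PTF fun i => (D i).fcodes)
    (hr : PTF fun i => (D i).flats)
    (hm : PTF fun p : ι × φ × α => (D p.1).mem p.2.1 p.2.2) : PTF fun i => (D i).edgesX := by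
  unfold Data.edgesX
  refine PTF.append ?_ ?_
  · exact PTF.map (f := fun _ (e : W α φ × W α φ) => ((.inl e.1, .inl e.2) : X α φ × X α φ))
      (PTF.append (ptf_edges1 hv hf hm) (PTF.append (ptf_edges2 hv hf hm)
        (PTF.append (ptf_edges3 hr) (ptf_edges4 hv hf hr hm))))
      (PTF.pair (PTF.inl PTF.id.snd.fst) (PTF.inl PTF.id.snd.snd))
  · refine PTF.flatMap (f := fun _ (T : List (W α φ)) =>
      T.map fun w => ((.inr T, .inl w) : X α φ × X α φ)) ?_ ?_
    · exact PTF.flatMap (f := fun _ (R : Flat α φ) => (Ts R : List (List (W α φ)))) hr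
        (ptf_Ts PTF.id.snd)
    · exact PTF.map (f := fun (p : ι × List (W α φ)) (w : W α φ) =>
        ((.inr p.2, .inl w) : X α φ × X α φ)) PTF.id.snd
        (PTF.pair (PTF.inr PTF.id.fst.snd) (PTF.inl PTF.id.snd))

end Pool.Agent.Helper57.G4
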